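import Pool.Agent.R461.AP.Main

/-!
# Tate's formula for the products of any variety with the curves of a family

`K` is a number field, `X` any smooth projective variety over `K` and `(Y_b)` a family of curves over
`K`, finite or infinite, such that the functions `L(H¹(Y_b) ⊗ H¹(Y_b'), s)` have neither a pole nor a zero
at `s = 2` for `b ≠ b'`, and a pole of order `e_b > 0` for `b = b'` (`IsCurveFamily`).  Examples are all
elliptic curves over `ℚ` up to isogeny, with all `e_b = 1`, by their modularity and the theorems of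
Rankin, Selberg, Jacquet and Shalika.

By the formula of Künneth `H^{2m}(X × Y_b)` is the sum of `H^{2m}(X)`, of `H^{2m-2}(X)(-1)` and of
`H^{2m-1}(X) ⊗ H¹(Y_b)`.  Let `n_b` be the number of copies of `H¹(Y_b)(1 - m)` in `H^{2m-1}(X)`; if the
curves are elliptic curves over `ℚ` and `m = 1`, it is the multiplicity of `Y_b` in the Picard
variety of `X` up to isogeny.  The classes of the cycles in `H^{2m-1}(X) ⊗ H¹(Y_b)` should form a space of
dimension `n_b e_b` (for `m = 1` they do, by the theorem of Faltings), so that Tate's formula for the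
orders of the poles at `m + 1` is `r(X × Y_b) = r(X) + r'(X) + n_b e_b`, for `r(X)` belonging to
`H^{2m}(X)` and `r'(X)` to `H^{2m-2}(X)`.
The definitions are in `Pool.Agent.R461.AP.Defs`, `Pool.Agent.R461.ZF.Defs`,
`Pool.Agent.R461.UR.Defs`, `Pool.Agent.R461.UT.Defs`, `Pool.Agent.W353.EH.Defs` and
`Pool.Agent.W353.EF.Defs`.
-/

set_option autoImplicit false

namespace Pool.Agent.Results.MP_223b32_ag.CurvesInFamilies

open NumberField IsDedekindDomain Filter Topology Polynomial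
open Pool.Agent.R461.UR (IsL)
open Pool.Agent.R461.AP

/-- **Tate's formula for almost all members of a family.**  Let `X` be any smooth projective variety of
dimension `d` over `K`, `1 ≤ m ≤ d`, `(Y_b)` a family of curves as above, `n_b` numbers, almost all zero,
such that `H^{2m-1}(X)` contains the sum of the `n_b` copies of the `H¹(Y_b)(1 - m)`, and `R` the dimension
of the complement.  Nothing is assumed about the automorphy of the cohomology of `X`.
* Write `x(V, i)` for `log |L(H^i(V), i/2 + 1 + ε)| / log(1/ε)`, a function of `ε > 0`, and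
`δ_b = x(X × Y_b, 2m) - x(X, 2m) - x(X, 2m - 2) - n_b e_b`.  For every finite set `S` of indices and
`η > 0`, for small `ε > 0`, `∑_{b ∈ S} δ_b² / e_b ≤ R² + η` (no continuation is assumed).
* Suppose that `L(H^{2m}(X), s)` and `L(H^{2m-2}(X), s)` have poles of some orders `r₁` and `r₂` at `m + 1`
and `m`.  If `L(H^{2m}(X × Y_b), s)` has a pole of some order `r_b` at `m + 1` for `b ∈ S`, then
`∑_{b ∈ S} (r_b - r₁ - r₂ - n_b e_b)² / e_b ≤ R²`.
* So with at most `E R²` exceptions, all members `b` of the family with `e_b ≤ E` satisfy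
`r_b = r₁ + r₂ + n_b e_b`, if the order `r_b` is defined. -/
theorem result (K : Type) [Field K] [NumberField K] (X : Variety K) (m : ℕ) (hm : 1 ≤ m)
    (hmd : m ≤ X.d) (β : Type) (Y : β → Variety K) (e : β → ℕ) (hY : IsCurveFamily Y e)
    (n : β →₀ ℕ) (R' : Finset (HeightOneSpectrum (𝓞 K))) (hn : Contains X m Y n R')
    (Z : β → Variety K) (hZ : ∀ b, IsProduct (Z b) X (Y b)) (h1 : ∀ b, 2 * m ≤ 2 * (Z b).d)
    (h2 : 2 * m ≤ 2 * X.d) (h3 : 2 * m - 2 ≤ 2 * X.d) :
    (∀ (S : Finset β) (BZ : β → HeightOneSpectrum (𝓞 K) → ℂ[X])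
      (BX BX' : HeightOneSpectrum (𝓞 K) → ℂ[X]),
      (∀ b ∈ S, IsL ((Z b).coh (2 * m) (h1 b)).mot 0 (BZ b)) →
      IsL (X.coh (2 * m) h2).mot 0 BX → IsL (X.coh (2 * m - 2) h3).mot 0 BX' →
      ∀ η : ℝ, 0 < η → ∀ᶠ ε : ℝ in 𝓝[>] 0,
        ∑ b ∈ S, (poleSize (Z b) (2 * m) (h1 b) (BZ b) ε - poleSize X (2 * m) h2 BX ε -
          poleSize X (2 * m - 2) h3 BX' ε - n b * e b) ^ 2 / e b ≤ rest X m Y n ^ 2 + η) ∧
    ∀ r₁ r₂ : ℤ, HasPole X (2 * m) h2 r₁ → HasPole X (2 * m - 2) h3 r₂ →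
      (∀ (S : Finset β) (r : β → ℤ), (∀ b ∈ S, HasPole (Z b) (2 * m) (h1 b) (r b)) →
        ∑ b ∈ S, ((r b : ℝ) - r₁ - r₂ - n b * e b) ^ 2 / e b ≤ rest X m Y n ^ 2) ∧
      ∀ E : ℕ,
        {b : β | e b ≤ E ∧ ∃ r : ℤ, HasPole (Z b) (2 * m) (h1 b) r ∧
          r ≠ r₁ + r₂ + n b * e b}.Finite ∧
        ({b : β | e b ≤ E ∧ ∃ r : ℤ, HasPole (Z b) (2 * m) (h1 b) r ∧
          r ≠ r₁ + r₂ + n b * e b}.ncard : ℝ) ≤ E * rest X m Y n ^ 2 := by
  choose σ hσ using Pool.Agent.W540.BE.exists_isFrob (F := K)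
  exact ⟨fun S BZ BX BX' hBZ hBX hBX' η hη =>
      main hσ hY hm hmd hn hZ S h1 h2 h3 hBZ hBX hBX' hη,
    fun r₁ r₂ hr₁ hr₂ => ⟨fun S r hr => poles hσ hY hm hmd hn hZ S h1 h2 h3 hr hr₁ hr₂,
      fun E => exceptions hσ hY hm hmd hn hZ h1 h2 h3 hr₁ hr₂ E⟩⟩

end Pool.Agent.Results.MP_223b32_ag.CurvesInFamilies
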