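import Pool.Agent.R410.NG.Si
import Pool.Agent.R410.EP.SepS

/-!
# The analytic Tate conjecture for surfaces which are fibred over the line in hyperelliptic curves

Let `M` be a finitely generated field of characteristic zero and of transcendence degree `d` over `ℚ`, and
let `K = M(w)` be the field of rational functions over `M`.  Let `g, n ≥ 1`, and let `a, b, c ∈ M[t][x]`,
where `c` is monic of degree `2g + 1` in `x`, the degrees of `a` and `b` in `x` are less than `2g + 1`, the
coefficients of `x^j` in `a, b, c` are of degree `≤ 2n(2g + 1 - j)` in `t`, and `b² ≠ 4ac`.  Let `X` be the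
surface over `K` with the equation

  `y² = F(t, x)`,  `F = a(t, x) w² + b(t, x) w + c(t, x)`.

It is projective: near `t = ∞` one puts `t = 1 / t'`, `x = x' / t'^{2n}`, `y = y' / t'^{n(2g+1)}`, which gives
an equation `y'² = F'(t', x')`, and on every fibre of `X → ℙ¹` there is one more point, which is rational and
smooth: the section `O`.  For `g = 1` the smooth `X` are elliptic surfaces with a section, with
irreducible fibres and with `χ(𝒪) = n`: rational surfaces for `n = 1` and K3 surfaces for `n = 2`.

We prove the analytic Tate conjecture (Q1) for smooth `X` in codimension `j = 1`, where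
`s₀ = 1 + dim_a(K) = d + 3`.

The algebraic side.  All the fibres of `X → ℙ¹` are irreducible, and `H¹(X, 𝒪) = 0` as `n ≥ 1`.  Thus, if
`X` is smooth, then `rank A¹(X) = rank NS(X/K) = 2 + rank J(K(t))` (Shioda–Tate), where `J` is the Jacobian of
the generic fibre, and `J(K(t))` is the class group of the ring `K(t)[X, Y] / (Y² - F(t, X))`.  We prove
that this rank is finite, and compute it: it is `σ - ε`, for the field `M(t)`, where `σ` is the number of
the monic irreducible `δ ∈ M(t)[X]` such that `a T² + b T + c` is modulo `δ` the square of a nonzero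
polynomial `r T + s`, and `ε = 1` if `a` is a nonzero square, and `ε = 0` otherwise.

The analytic side: let `R` be any integral domain which is finitely generated over `ℤ` and has the field of
fractions `K`, and over which the surface has an equation `y² = G(t, x)`, and let `N` be any nonzero element
of `R`, for example such that the fibres over the closed points of `Spec R[1/N]` are smooth (such `N` exist,
if `X` is smooth).  Then the Euler product of the `L`-function of `H²` over the closed points of
`Spec R[1/N]` converges for `Re s > s₀ + 1/2`, has an analytic continuation to `Re s > s₀`, which is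
meromorphic at `s₀`, and its pole there is of the order `2 + rank J(K(t)) = rank A¹(X)`.

The factor at the point `y` is `exp (∑_{j ≥ 1} t_j T ^ j / j)`, where `T = N(y) ^ {-s}` and where
`t_j = #X_y(κ_j) - 1 - N(y)^{2j}` is the trace of the `j`-th power of the Frobenius on `H²` of the smooth
fibre `X_y` (Lefschetz; `H¹ = H³ = 0`), `κ_j` being the extension of degree `j` of the residue field.
-/

set_option autoImplicit false

namespace Pool.Agent.Results.MP_223b32_ag.HyperellipticSurfaces

open Polynomial

/-- The polynomial `c(t, x) + w b(t, x) + w² a(t, x)` over `K`, as a polynomial in `x` over `K[t]`. -/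
noncomputable def surface {M K : Type} [Field M] [Field K] [Algebra M K] (a b c : M[X][X]) (w : K) :
    K[X][X] :=
  c.map (mapRingHom (algebraMap M K)) + C (C w) * b.map (mapRingHom (algebraMap M K)) +
    C (C (w ^ 2)) * a.map (mapRingHom (algebraMap M K))

/-- A polynomial in `x` over `M[t]` as a polynomial over `M(t)`: the generic fibre. -/
noncomputable def generic {M : Type} [Field M] (p : M[X][X]) : (RatFunc M)[X] :=
  p.map (algebraMap M[X] (RatFunc M))

/-- Modulo `δ`, the polynomial `a T² + b T + c` is the square of a nonzero polynomial `r T + s`. -/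
def IsSplit {M : Type} [Field M] (a b c δ : M[X]) : Prop :=
  ∃ r s : M[X], δ ∣ a - r ^ 2 ∧ δ ∣ b - 2 * r * s ∧ δ ∣ c - s ^ 2 ∧ ¬ (δ ∣ r ∧ δ ∣ s)

/-- The number of the monic irreducible polynomials over which the conic splits. -/
noncomputable def sigma {M : Type} [Field M] (a b c : M[X]) : ℕ :=
  Nat.card {δ : M[X] // δ.Monic ∧ Irreducible δ ∧ IsSplit a b c δ}

open Classical in
/-- `σ - 1` if `a` is a nonzero square, and `σ` otherwise. -/
noncomputable def rho {M : Type} [Field M] (a b c : M[X]) : ℕ :=
  sigma a b c - if a ≠ 0 ∧ IsSquare a then 1 else 0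

/-- The rank of the class group of the ring `K[X, Y] / (Y² - F(X))`. -/
def ClassGroupHasRank {K : Type} [Field K] (F : K[X]) (n : ℕ) : Prop :=
  ∃ _ : IsDomain (AdjoinRoot (X ^ 2 - C F : K[X][X])),
    Module.rank ℤ (Additive (ClassGroup (AdjoinRoot (X ^ 2 - C F : K[X][X])))) = n

/-- The derivative of `P(t, x)` with respect to `t`. -/
noncomputable def derivT {R : Type} [CommRing R] (P : R[X][X]) : R[X][X] :=
  ∑ j ∈ P.support, C (derivative (P.coeff j)) * X ^ j

/-- The ideal generated by `P` and its two derivatives is the unit ideal: for a field in which `2 ≠ 0` the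
affine surface `y² = P(t, x)` is smooth. -/
def IsSmoothChart {R : Type} [CommRing R] (P : R[X][X]) : Prop :=
  ∃ u v z : R[X][X], u * P + v * derivative P + z * derivT P = 1

/-- The polynomial `P'(t', x') = t'^{2n(2g+1)} P(1 / t', x' / t'^{2n})` of the chart at `t = ∞`. -/
noncomputable def chart {R : Type} [CommRing R] (g n : ℕ) (P : R[X][X]) : R[X][X] :=
  ∑ j ∈ Finset.range (2 * g + 2), C (reflect (2 * n * (2 * g + 1 - j)) (P.coeff j)) * X ^ j

/-- For a field in which `2 ≠ 0`: the surface `y² = P(t, x)` is smooth, also at `t = ∞`. -/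
def IsSmooth {R : Type} [CommRing R] (g n : ℕ) (P : R[X][X]) : Prop :=
  IsSmoothChart P ∧ IsSmoothChart (chart g n P)

/-- The polynomial `P'(0, x')` of the fibre at `t = ∞`: the coefficient of `X ^ j` is the coefficient of
`t ^ (2n(2g + 1 - j)) x ^ j` in `P`. -/
noncomputable def atInfinity {R : Type} [CommRing R] (g n : ℕ) (P : R[X][X]) : R[X] :=
  ∑ j ∈ Finset.range (2 * g + 2), C ((P.coeff j).coeff (2 * n * (2 * g + 1 - j))) * X ^ j

/-- The number of the points `(x, y)` of the affine curve `y² = g(x)` over the algebraic closure of the field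
`k` with `x ^ n = x` and `y ^ n = y`: if `k` has `q` elements and `n = q ^ j`, these are the points over the
extension of `k` of degree `j`. -/
noncomputable def pointsCurve (k : Type) [Field k] (g : k[X]) (n : ℕ) : ℕ :=
  Nat.card {P : AlgebraicClosure k × AlgebraicClosure k //
    P.1 ^ n = P.1 ∧ P.2 ^ n = P.2 ∧ P.2 ^ 2 = aeval P.1 g}

/-- In the same way, the number of the points `(t, x, y)` of the affine surface `y² = P(t, x)`. -/
noncomputable def pointsSurface (k : Type) [Field k] (P : k[X][X]) (n : ℕ) : ℕ :=
  Nat.card {Q : AlgebraicClosure k × AlgebraicClosure k × AlgebraicClosure k //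
    Q.1 ^ n = Q.1 ∧ Q.2.1 ^ n = Q.2.1 ∧ Q.2.2 ^ n = Q.2.2 ∧
      Q.2.2 ^ 2 = eval₂ (aeval Q.1 : k[X] →ₐ[k] AlgebraicClosure k).toRingHom Q.2.1 P}

/-- The norm of a closed point: the number of the elements of the residue field. -/
noncomputable def norm {R : Type} [CommRing R] (y : MaximalSpectrum R) : ℕ := Nat.card (R ⧸ y.asIdeal)

/-- The number `#X_y(κ_j)` of the points over the extension of degree `j` of the residue field of the fibre
over `y` of the surface `y² = G(t, x)`: the affine points, the points with `t = ∞` and `x ≠ ∞`, and the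
`N(y)^j + 1` points of the section. -/
noncomputable def points {R : Type} [CommRing R] (g n : ℕ) (G : R[X][X]) (y : MaximalSpectrum R)
    (j : ℕ) : ℕ :=
  letI : Field (R ⧸ y.asIdeal) := Ideal.Quotient.field y.asIdeal
  pointsSurface (R ⧸ y.asIdeal) (G.map (mapRingHom (Ideal.Quotient.mk y.asIdeal))) (norm y ^ j) +
    pointsCurve (R ⧸ y.asIdeal) ((atInfinity g n G).map (Ideal.Quotient.mk y.asIdeal)) (norm y ^ j) +
      (norm y ^ j + 1)

/-- The trace on `H²` of the `j`-th power of the Frobenius of the fibre over `y`. -/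
noncomputable def traceTwo {R : Type} [CommRing R] (g n : ℕ) (G : R[X][X]) (y : MaximalSpectrum R)
    (j : ℕ) : ℝ :=
  (points g n G y j : ℝ) - 1 - ((norm y ^ j : ℕ) : ℝ) ^ 2

/-- The local factor `det(1 - Frob_y T | H²)⁻¹ = exp (∑_{j ≥ 1} t_j T ^ j / j)`. -/
noncomputable def factor {R : Type} [CommRing R] (g n : ℕ) (G : R[X][X]) (y : MaximalSpectrum R)
    (T : ℂ) : ℂ :=
  Complex.exp (∑' j : ℕ, (traceTwo g n G y (j + 1) : ℂ) / ((j + 1 : ℕ) : ℂ) * T ^ (j + 1))

/-- **The analytic Tate conjecture in codimension one for the surfaces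
`y² = a(t, x) w² + b(t, x) w + c(t, x)` over `M(w)`, fibred over the `t`-line, for an arbitrary finitely
generated field `M` of characteristic zero and for every model.** -/
theorem result {M : Type} [Field M] [CharZero M]
    (hM : ∃ S : Finset M, Subfield.closure (S : Set M) = ⊤) {d : ℕ} (hd : Algebra.trdeg ℚ M = d)
    {K : Type} [Field K] [CharZero K] [Algebra M K] {w : K} (hw : Transcendental M w)
    (hK : IntermediateField.adjoin M {w} = ⊤)
    {g n : ℕ} (hg : 1 ≤ g) (hn : 1 ≤ n) {a b c : M[X][X]} (hc : c.Monic)
    (hcd : c.natDegree = 2 * g + 1) (ha : a.natDegree < 2 * g + 1) (hb : b.natDegree < 2 * g + 1)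
    (hat : ∀ j, (a.coeff j).natDegree ≤ 2 * n * (2 * g + 1 - j))
    (hbt : ∀ j, (b.coeff j).natDegree ≤ 2 * n * (2 * g + 1 - j))
    (hct : ∀ j, (c.coeff j).natDegree ≤ 2 * n * (2 * g + 1 - j))
    (hΔ : b ^ 2 - 4 * a * c ≠ 0) (hs : (generic (surface a b c w)).Separable) :
    Algebra.trdeg ℚ K = (d + 1 : ℕ) ∧
    (surface a b c w).Monic ∧ (surface a b c w).natDegree = 2 * g + 1 ∧
    (∀ j, ((surface a b c w).coeff j).natDegree ≤ 2 * n * (2 * g + 1 - j)) ∧
    -- the algebraic side: the rank of `J(K(t))`
    Finite {δ : (RatFunc M)[X] // δ.Monic ∧ Irreducible δ ∧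
      IsSplit (generic a) (generic b) (generic c) δ} ∧
    (generic a ≠ 0 ∧ IsSquare (generic a) → 1 ≤ sigma (generic a) (generic b) (generic c)) ∧
    ClassGroupHasRank (generic (surface a b c w)) (rho (generic a) (generic b) (generic c)) ∧
    -- the Euler product, for every model
    ∀ (R : Type) [CommRing R] [IsDomain R] [Algebra.FiniteType ℤ R] [Algebra R K]
      [IsFractionRing R K] (G : R[X][X]), G.Monic →
      G.map (mapRingHom (algebraMap R K)) = surface a b c w →
      (IsSmooth g n (surface a b c w) →
        ∃ N : R, N ≠ 0 ∧ ∀ y : MaximalSpectrum R, N ∉ y.asIdeal → (2 : R) ∉ y.asIdeal ∧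
          IsSmooth g n (G.map (mapRingHom (Ideal.Quotient.mk y.asIdeal)))) ∧
      ∀ N : R, N ≠ 0 → ∃ Φ : ℂ → ℂ,
        (∀ s : ℂ, ((d + 3 : ℕ) : ℝ) + 1 / 2 < s.re →
          HasProd (fun y : {y : MaximalSpectrum R // N ∉ y.asIdeal} =>
            factor g n G y.1 ((norm y.1 : ℂ) ^ (-s))) (Φ s)) ∧
        DifferentiableOn ℂ Φ {s : ℂ | ((d + 3 : ℕ) : ℝ) < s.re} ∧
        MeromorphicAt Φ ((d + 3 : ℕ) : ℂ) ∧
        meromorphicOrderAt Φ ((d + 3 : ℕ) : ℂ) =
          ((-(2 + rho (generic a) (generic b) (generic c)) : ℤ) : WithTop ℤ) := by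
  classical
  have hinj : Function.Injective (algebraMap M[X] (RatFunc M)) := RatFunc.algebraMap_injective M
  have hodd : Odd c.natDegree := by rw [hcd]; exact ⟨g, rfl⟩
  have hac : a.natDegree < c.natDegree := by rw [hcd]; exact ha
  have hbc : b.natDegree < c.natDegree := by rw [hcd]; exact hb
  have hcL : CharZero (RatFunc M) := charZero_of_injective_algebraMap
    (algebraMap M (RatFunc M)).injective
  have hcK : CharZero (RatFunc K) := charZero_of_injective_algebraMap
    (algebraMap K (RatFunc K)).injective
  have ht : Transcendental M (RatFunc.X : RatFunc M) := by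
    rw [transcendental_iff_injective]
    intro p q h
    apply RatFunc.algebraMap_injective M
    rwa [RatFunc.aeval_X_left_eq_algebraMap, RatFunc.aeval_X_left_eq_algebraMap] at h
  have htt : Transcendental K (RatFunc.X : RatFunc K) := by
    rw [transcendental_iff_injective]
    intro p q h
    apply RatFunc.algebraMap_injective K
    rwa [RatFunc.aeval_X_left_eq_algebraMap, RatFunc.aeval_X_left_eq_algebraMap] at h
  have hL : IntermediateField.adjoin M {(RatFunc.X : RatFunc M)} = ⊤ := RatFunc.adjoin_X
  have hK₁ : IntermediateField.adjoin K {(RatFunc.X : RatFunc K)} = ⊤ := RatFunc.adjoin_X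
  have hgen : ∀ {E : Type} [Field E] (p : E[X][X]),
      generic p = p.map (aeval (RatFunc.X : RatFunc E) : E[X] →ₐ[E] RatFunc E).toRingHom := by
    intro E _ p
    unfold generic
    congr 1
    refine RingHom.ext fun q => ?_
    exact (RatFunc.aeval_X_left_eq_algebraMap q).symm
  obtain ⟨iL, h1, h2, h3, h4⟩ := Pool.Agent.R410.NG.sf_line (L := RatFunc M) (x₀ := RatFunc.X)
    hw hK ht hL htt hK₁
  have hF : generic (surface a b c w) = Pool.Agent.R410.CB.fq (generic a) (generic b) (generic c)
      (algebraMap K (RatFunc K) w) := by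
    rw [hgen a, hgen b, hgen c, ← h4 a b c, hgen]
    rfl
  have hSp : ∀ {L : Type} [Field L] (a b c δ : L[X]), IsSplit a b c δ ↔
      ∃ r s : L[X], Pool.Agent.R410.CB.Spl a b c δ r s := by
    intro L _ a b c δ
    constructor
    · rintro ⟨r, s, h1, h2, h3, h4⟩
      exact ⟨r, s, h1, h2, h3, h4⟩
    · rintro ⟨r, s, h⟩
      exact ⟨r, s, h.ha, h.hb, h.hc, h.ne⟩
  let e : {δ : (RatFunc M)[X] // δ.Monic ∧ Irreducible δ ∧
      IsSplit (generic a) (generic b) (generic c) δ} ≃
      Pool.Agent.R410.NG.SplT (generic a) (generic b) (generic c) :=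
    Equiv.subtypeEquivRight fun δ => by rw [hSp _ _ _ δ]
  have hσ : sigma (generic a) (generic b) (generic c) =
    Nat.card (Pool.Agent.R410.NG.SplT (generic a) (generic b) (generic c)) := Nat.card_congr e
  have hΔ' : (generic b) ^ 2 - 4 * generic a * generic c ≠ 0 := by
    rw [hgen a, hgen b, hgen c]
    exact Pool.Agent.R410.NG.delta_ne ht hΔ
  have hfin : Finite (Pool.Agent.R410.NG.SplT (generic a) (generic b) (generic c)) :=
    Pool.Agent.R410.NG.finite_spl two_ne_zero hΔ'
  have hndg : ∀ p : M[X][X], (generic p).natDegree = p.natDegree := fun p =>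
    natDegree_map_eq_of_injective hinj p
  have hsq : Squarefree (Pool.Agent.R410.CB.fq (generic a) (generic b) (generic c)
      (algebraMap K (RatFunc K) w)) := by
    rw [← hF]
    exact hs.squarefree
  obtain ⟨r1, r2⟩ := Pool.Agent.R410.NG.rank_cb' h1 h2 (by rw [hndg]; exact hodd)
    (by rw [hndg, hndg]; exact hac) (by rw [hndg, hndg]; exact hbc) hsq hΔ'
  have hnn : Pool.Agent.R410.NG.nn3 (RatFunc.X : RatFunc M) a b c =
      (rho (generic a) (generic b) (generic c) : ℤ) := by
    unfold Pool.Agent.R410.NG.nn3
    rw [← hgen a, ← hgen b, ← hgen c]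
    unfold rho
    rw [hσ]
    by_cases h : generic a ≠ 0 ∧ IsSquare (generic a)
    · rw [if_pos h, if_pos h, Nat.cast_sub (r2 h)]
      push_cast
      rfl
    · rw [if_neg h, if_neg h, Nat.sub_zero, sub_zero]
  have hcoef : ∀ j, (surface a b c w).coeff j = (c.coeff j).map (algebraMap M K) +
      C w * (b.coeff j).map (algebraMap M K) + C (w ^ 2) * (a.coeff j).map (algebraMap M K) := by
    intro j
    unfold surface
    rw [coeff_add, coeff_add, coeff_C_mul, coeff_C_mul, coeff_map, coeff_map, coeff_map]
    rfl
  have hnd : (surface a b c w).natDegree = 2 * g + 1 := by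
    have h5 : (generic (surface a b c w)).natDegree = (surface a b c w).natDegree :=
      natDegree_map_eq_of_injective (RatFunc.algebraMap_injective K) _
    rw [← h5, hF, Pool.Agent.R410.CB.deg_fq (by rw [hndg, hndg]; exact hac)
      (by rw [hndg, hndg]; exact hbc), hndg, hcd]
  have hmon : (surface a b c w).Monic := by
    rw [Monic, leadingCoeff, hnd, hcoef, coeff_eq_zero_of_natDegree_lt ha,
      coeff_eq_zero_of_natDegree_lt hb, ← hcd]
    have : c.coeff c.natDegree = 1 := hc
    rw [this, Polynomial.map_one, Polynomial.map_zero, mul_zero, mul_zero, add_zero, add_zero]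
  refine ⟨Pool.Agent.R410.NG.trdeg_line hd hw hK, hmon, hnd, ?_, Finite.of_equiv _ e.symm, ?_, ?_, ?_⟩
  · intro j
    rw [hcoef]
    refine (natDegree_add_le _ _).trans (max_le ((natDegree_add_le _ _).trans (max_le ?_ ?_)) ?_)
    · rw [natDegree_map]
      exact hct j
    · refine (natDegree_C_mul_le _ _).trans ?_
      rw [natDegree_map]
      exact hbt j
    · refine (natDegree_C_mul_le _ _).trans ?_
      rw [natDegree_map]
      exact hat j
  · rw [hσ]
    exact r2
  · unfold ClassGroupHasRank rho
    rw [hσ, hF]
    exact r1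
  · intro R _ _ _ _ _ G hG hGK
    refine ⟨?_, ?_⟩
    · rintro ⟨s1, s2⟩
      rw [← hGK] at s1 s2
      exact Pool.Agent.R410.EP.exists_goodS (K := K) s1 s2
    · intro N hN
      have hGd : G.natDegree = 2 * g + 1 := by
        rw [← hG.natDegree_map (mapRingHom (algebraMap R K)), hGK, hnd]
      have hG1 : (atInfinity g n G).coeff (2 * g + 1) = 1 := by
        unfold atInfinity
        rw [finset_sum_coeff, Finset.sum_eq_single (2 * g + 1)]
        · rw [coeff_C_mul, coeff_X_pow, if_pos rfl, mul_one, Nat.sub_self, mul_zero]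
          have h5 : G.coeff (2 * g + 1) = 1 := by
            rw [← hGd]
            exact hG
          rw [h5, coeff_one_zero]
        · intro j _ hj
          rw [coeff_C_mul, coeff_X_pow, if_neg (fun h => hj h.symm), mul_zero]
        · intro h
          exact absurd (Finset.mem_range.2 (by omega)) h
      have hG2 : (atInfinity g n G).natDegree ≤ 2 * g + 1 := by
        unfold atInfinity
        refine natDegree_sum_le_of_forall_le _ _ fun j hj => ?_
        refine (natDegree_C_mul_X_pow_le _ _).trans ?_
        have := Finset.mem_range.1 hj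
        omega
      have hG3 : (atInfinity g n G).natDegree = 2 * g + 1 :=
        natDegree_eq_of_le_of_coeff_ne_zero hG2 (by rw [hG1]; exact one_ne_zero)
      have hG' : (atInfinity g n G).Monic := by
        rw [Monic, leadingCoeff, hG3, hG1]
      obtain ⟨Φ, p1, p2, p3, p4⟩ := Pool.Agent.R410.NG.euler_surface hM hd hw hK ht hL hodd hac hbc hΔ
        hG (by rw [hGd, hcd]) hGK hG' (by rw [hG3, hcd]) hN
      rw [hnn] at p4
      have e1 : (((d + 3 : ℕ) : ℂ) - 1) = ((d + 1 : ℕ) : ℂ) + 1 := by
        push_cast
        ring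
      refine ⟨fun s => Φ (s - 1), ?_, ?_, ?_, ?_⟩
      · intro s hs
        have h1 := p1 (s - 1) (by
          rw [Complex.sub_re, Complex.one_re]
          push_cast at hs ⊢
          linarith)
        have h2 : (fun y : {y : MaximalSpectrum R // N ∉ y.asIdeal} =>
            factor g n G y.1 ((norm y.1 : ℂ) ^ (-s))) = fun y : {y : Pool.Agent.TH958.An.Pt R //
              N ∉ y.asIdeal} => Pool.Agent.R410.EP.ZG
                (Pool.Agent.R410.NG.tauS G (atInfinity g n G)) y.1
                ((Pool.Agent.TH958.An.qy y.1 : ℂ) ^ (-(s - 1))) := by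
          funext y
          unfold factor Pool.Agent.R410.EP.ZG
          congr 1
          refine tsum_congr fun j => ?_
          have hq0 : (Pool.Agent.TH958.An.qy y.1 : ℂ) ≠ 0 := by
            have := Pool.Agent.TH958.An.qy_eq y.1
            rw [this]
            have h3 := (Pool.Agent.TH958.An.pk y.1).1.2.pos
            exact_mod_cast pow_ne_zero _ h3.ne'
          have hqn : norm y.1 = Pool.Agent.TH958.An.qy y.1 := rfl
          have hqr : ((Pool.Agent.TH958.An.qy y.1 ^ (j + 1) : ℕ) : ℝ) ≠ 0 := by
            have : Pool.Agent.TH958.An.qy y.1 ≠ 0 := by exact_mod_cast hq0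
            exact_mod_cast pow_ne_zero _ this
          have ht2 : traceTwo g n G y.1 (j + 1) =
              ((Pool.Agent.TH958.An.qy y.1 ^ (j + 1) : ℕ) : ℝ) *
              Pool.Agent.R410.NG.tauS G (atInfinity g n G) y.1
                (Pool.Agent.TH958.An.qy y.1 ^ (j + 1)) := by
            unfold Pool.Agent.R410.NG.tauS
            rw [← mul_assoc, mul_inv_cancel₀ hqr, one_mul]
            rfl
          have h4 : (Pool.Agent.TH958.An.qy y.1 : ℂ) ^ (-(s - 1)) =
              (Pool.Agent.TH958.An.qy y.1 : ℂ) ^ (-s) * (Pool.Agent.TH958.An.qy y.1 : ℂ) := by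
            rw [show -(s - 1) = -s + 1 by ring, Complex.cpow_add _ _ hq0, Complex.cpow_one]
          rw [hqn, h4, ht2, mul_pow]
          push_cast
          ring
        rw [h2]
        exact h1
      · refine p2.comp (t := {s : ℂ | ((d + 1 : ℕ) : ℝ) + 1 < s.re}) (f := fun s : ℂ => s - 1)
          (differentiableOn_id.sub_const 1) fun s hs => ?_
        rw [Set.mem_ofPred_eq] at hs
        show ((d + 1 : ℕ) : ℝ) + 1 < (s - 1).re
        rw [Complex.sub_re, Complex.one_re]
        push_cast at hs ⊢
        linarith
      · rw [meromorphicAt_fun_comp_sub_const_iff_meromorphicAt, e1]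
        exact p3
      · rw [meromorphicOrderAt_fun_comp_sub_const_eq_meromorphicOrderAt, e1]
        exact p4

end Pool.Agent.Results.MP_223b32_ag.HyperellipticSurfaces
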