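import Pool.Agent.R937.PZ.Ana

/-!
# The analytic Tate conjecture over finite fields for abelian varieties of dimension at most five and for
products of elliptic curves, abelian surfaces and non-ordinary threefolds

Over an algebraic closure of the field with `p` elements each abelian variety is isogenous to the
reduction of an abelian variety of CM type (Honda, Tate). So an abelian variety over the field with
`p ^ a` elements is modelled by a finite product `X` of CM types `(E i, Φ i)` with Weil numbers
`π i ∈ E i` that satisfy the formula of Shimura and Taniyama (`RedAV`); its rational Tate module, with
complex coefficients, is `ℂ ⊗ H_1(X, ℚ)`, on which the Frobenius endomorphism acts by `π`.

Let `Y` be an abelian variety over the field with `p ^ a` elements of one of the following kinds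
(`IsGoodAVP`):

* its dimension is at most five (any Newton polygon, any decomposition, also the exceptional ones
  which are excluded in the starting result `AbelianDimensionFive`);
* it is isogenous, over an algebraic closure, to a product of a supersingular abelian variety of any
  dimension and of abelian varieties of dimension at most three (any number, any multiplicity), such
  that any two factors of dimension three whose CM fields have the same Galois closure satisfy one of
  the following: their fields are Galois over `ℚ`; one of them is supersingular; they are isogenous;
  **neither of them is ordinary and their `p`-ranks are not `{1, 2}`**. So `Y` may be any product of
  elliptic curves, of abelian surfaces and of abelian threefolds that all have `p`-rank two, or that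
  all have `p`-rank zero or one; nonisogenous threefolds with the same CM field, or with different CM
  fields with the same Galois closure, are allowed. The theorem in the starting files (`algS_goodS`,
  for `IsGoodAVS`) excludes two nonisogenous threefolds that are not supersingular and whose CM fields
  have the same Galois closure, unless these fields are Galois over `ℚ`; the new theorem on Tate
  classes is `Pool.Agent.R937.PG.main` (in `Pool/Agent/R937/PZ`).

Let `C r` be rational vector spaces of cohomology classes of degree `2 r` on `Y` with the following
properties of the spaces of classes of algebraic cycles of codimension `r` over the extension `k` of
degree `s` of the ground field (`CycleSystemS`): they consist of Tate classes, intersection numbers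
are rational, and the Tate classes in the system `AlgS` are combinations of elements of `C r` with
coefficients in `ℂ`. Here `AlgS` is the smallest system of cohomology classes of abelian varieties
over finite fields that contains the Tate classes of degree two, the reductions of the Weil classes of
imaginary quadratic fields on abelian fourfolds and sixfolds of CM type and of split Weil type, and the
reductions of the Hodge classes of degree four on products of elliptic curves and abelian surfaces of
CM type, and that is stable under linear combinations, cup products, pull-backs along homomorphisms
and push-forwards along projections; these classes are algebraic by theorems of Tate, Markman, and
Ramón Marí.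

Then numerically trivial classes in `C r` are zero, and the function
`L(z) = det (1 - Frob Q ^ (-z) | H^{2r}) ^ (-1)`, `Q` the number of elements of `k`, has at `z = r` a
pole of order `dim (C r)`. This is the assertion of the analytic Tate conjecture for `Y` over the
finite field `k` (whose arithmetic dimension is zero), in all degrees `r`, together with the
agreement of numerical and homological equivalence.
-/

namespace Pool.Agent.Results.MP_223b32_ag.NonOrdinaryThreefolds

open Pool.Agent.W495.TA Pool.Agent.W547.KB Pool.Agent.W547.DR Pool.Agent.R937.PC
  Pool.Agent.R299.ANA
open Pool.Agent.R937.PG (IsGoodAVP)

/-- `Y` has dimension at most five or is a product of a supersingular abelian variety and of powers of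
small factors (`IsGoodAVP`). There are systems of rational subspaces with the properties of the spaces
of classes of algebraic cycles over the extension of degree `s`; and for all such systems `C` and all
`r`, numerically trivial classes in `C r` are zero, and the L-function of the cohomology of degree
`2 r` over this extension has at `r` a pole of order `dim (C r)`. -/
theorem result (p : ℕ) [Fact p.Prime] (ν : PadicAlgCl p ≃+* ℂ) (Y : RedAV p ν)
    (hY : IsGoodAVP Y) (s : ℕ) (hs : 0 < s) :
    (∃ C : Sys ℂ Y, CycleSystemS s C) ∧
      ∀ C : Sys ℂ Y, CycleSystemS s C → ∀ r : ℕ, AnalyticFormula s C r :=
  goodAnalyticP hY s hs

end Pool.Agent.Results.MP_223b32_ag.NonOrdinaryThreefolds
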