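import Pool.Agent.R410.NG.Ck

/-!
# The pole of the L-function of `H²` for the products of hyperelliptic curves of linear pencils

Let `M` be a finitely generated field of characteristic zero and of transcendence degree `d` over `ℚ`,
and let `K = M(w)` be the field of rational functions over `M`, so that `dim_a(K) = d + 2`.
Let `C_i : Y² = F_i(X)`, for `i < m`, be hyperelliptic curves over `K` of the genera `g_i`, where
`F_i = c_i + w b_i` with `b_i, c_i ∈ M[X]`, `c_i` monic of degree `2 g_i + 1`, `deg b_i ≤ 2 g_i` and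
`b_i ≠ 0`.  Let `X = C_1 × ... × C_m` and let `J_i` be the Jacobian of `C_i`.

The algebraic side.  `C_i` has one point at infinity, and it is rational.  Thus
`A¹(X) ⊗ ℚ = NS(X) ⊗ ℚ = ℚ^m ⊕ ⨁_{i < j} Hom_K(J_i, J_j) ⊗ ℚ` (divisors over `K`) and
`Hom_K(J_i, J_j) = J_j(K(C_i)) / J_j(K)`, so that `rank A¹(X) = m + ∑_{i < j} (r_{ij} - r_j)` with the ranks
`r_j` of `J_j(K)` and `r_{ij}` of `J_j(K(C_i))`.  For every field `K₁ ⊇ K` the group `J_j(K₁)` is the class
group of the ring `K₁[X, Y] / (Y² - F_j(X))`.  We prove that these ranks are finite, and we compute them: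

* `r_j` is the number of the monic irreducible divisors `δ` of `b_j` in `M[X]` such that `c_j` is a nonzero
  square modulo `δ`;
* `r_{ij} = σ - ε`, for the function field `M(x)`, where `σ` is the number of the
  monic irreducible `δ ∈ M(x)[X]` such that `a T² + c`, with `a = b_j(X) / b_i(x)` and
  `c = c_j(X) - (c_i(x) / b_i(x)) b_j(X)`, is modulo `δ` the square of a nonzero polynomial `r T + s`, and
  `ε = 1` if `a` is a square, and `ε = 0` otherwise.

The analytic side: for every model of `K` and of the curves, the Euler product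
`L(s) = ∏_y det(1 - Frob_y N(y)^{-s} | H²)⁻¹` over the closed points converges absolutely for
`Re s > d + 3 = 1 + dim_a(K)`, it continues meromorphically to a neighbourhood of `s = 1 + dim_a(K)`, and it
has there a pole of the order `rank A¹(X)`.  The local factor is `exp (∑_{j ≥ 1} t_j T ^ j / j)`,
where `T = N(y) ^ {-s}` and `t_j = m N(y) ^ j + ∑_{i < l} a_{i, j} a_{l, j}` is the trace of the `j`-th power
of the Frobenius on `H²` of the fibre (Künneth and Lefschetz): `a_{i, j}` is the trace on `H¹` of the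
fibre of `C_i`.
-/

set_option autoImplicit false

namespace Pool.Agent.Results.MP_223b32_ag.ProductsOfPencils

open Polynomial

/-- The polynomial `c(X) + w b(X) + w² a(X)` over `K`. -/
noncomputable def curve {M K : Type} [Field M] [Field K] [Algebra M K] (a b c : M[X]) (w : K) : K[X] :=
  c.map (algebraMap M K) + C w * b.map (algebraMap M K) + C (w ^ 2) * a.map (algebraMap M K)

/-- Modulo `δ`, the polynomial `a T² + b T + c` is the square of a nonzero polynomial `r T + s`. -/
def IsSplit {M : Type} [Field M] (a b c δ : M[X]) : Prop :=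
  ∃ r s : M[X], δ ∣ a - r ^ 2 ∧ δ ∣ b - 2 * r * s ∧ δ ∣ c - s ^ 2 ∧ ¬ (δ ∣ r ∧ δ ∣ s)

/-- The number of the monic irreducible polynomials over which the conic splits. -/
noncomputable def sigma {M : Type} [Field M] (a b c : M[X]) : ℕ :=
  Nat.card {δ : M[X] // δ.Monic ∧ Irreducible δ ∧ IsSplit a b c δ}

open Classical in
/-- `σ - 1` if `a` is a nonzero square, and `σ` otherwise. -/
noncomputable def rho {M : Type} [Field M] (a b c : M[X]) : ℕ :=
  sigma a b c - if a ≠ 0 ∧ IsSquare a then 1 else 0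

/-- The polynomial `b(x)⁻¹ b'(X)` over `M(x)`. -/
noncomputable def overB {M : Type} [Field M] (b b' : M[X]) : (RatFunc M)[X] :=
  C (aeval (RatFunc.X : RatFunc M) b)⁻¹ * b'.map (algebraMap M (RatFunc M))

/-- The polynomial `c'(X) - (c(x) / b(x)) b'(X)` over `M(x)`. -/
noncomputable def overC {M : Type} [Field M] (b c b' c' : M[X]) : (RatFunc M)[X] :=
  c'.map (algebraMap M (RatFunc M)) -
    C (aeval (RatFunc.X : RatFunc M) c * (aeval (RatFunc.X : RatFunc M) b)⁻¹) *
      b'.map (algebraMap M (RatFunc M))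

/-- The rank of the class group of the ring `K[X, Y] / (Y² - F(X))`. -/
def ClassGroupHasRank {K : Type} [Field K] (F : K[X]) (n : ℕ) : Prop :=
  ∃ _ : IsDomain (AdjoinRoot (X ^ 2 - C F : K[X][X])),
    Module.rank ℤ (Additive (ClassGroup (AdjoinRoot (X ^ 2 - C F : K[X][X])))) = n

/-- `K₁ = K(x, y)` is the function field of the curve `y² = F(x)`. -/
def IsFunctionField {K K₁ : Type} [Field K] [Field K₁] [Algebra K K₁] (F : K[X]) (x y : K₁) : Prop :=
  Transcendental K x ∧ y ^ 2 = aeval x F ∧ IntermediateField.adjoin K {x, y} = ⊤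

/-- The rank `m + ∑_{i < j} (r_{ij} - r_j)` of `A¹` of `C_1 × ... × C_m` over `K`. -/
noncomputable def rankA {M : Type} [Field M] {m : ℕ} (b c : Fin m → M[X]) : ℤ :=
  m + ∑ i, ∑ j, if i < j then
    ((rho (overB (b i) (b j)) 0 (overC (b i) (c i) (b j) (c j)) : ℤ) - rho 0 (b j) (c j)) else 0

/-- The number of the points `(x, y)` of the affine curve `y² = g(x)` over the algebraic closure of the field
`k` with `x ^ n = x` and `y ^ n = y`: if `k` has `q` elements and `n = q ^ j`, these are the points over the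
extension of `k` of degree `j`. -/
noncomputable def points (k : Type) [Field k] (g : k[X]) (n : ℕ) : ℕ :=
  Nat.card {P : AlgebraicClosure k × AlgebraicClosure k //
    P.1 ^ n = P.1 ∧ P.2 ^ n = P.2 ∧ P.2 ^ 2 = aeval P.1 g}

/-- The norm of a closed point: the number of the elements of the residue field. -/
noncomputable def norm {R : Type} [CommRing R] (y : MaximalSpectrum R) : ℕ := Nat.card (R ⧸ y.asIdeal)

/-- The trace on `H¹` of the `j`-th power of the Frobenius of the fibre of the curve `Y² = G(X)`: the number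
`N(y) ^ j - #(affine points of the fibre over the extension of degree j)`. -/
noncomputable def traceOne {R : Type} [CommRing R] (G : R[X]) (y : MaximalSpectrum R) (j : ℕ) : ℝ :=
  letI : Field (R ⧸ y.asIdeal) := Ideal.Quotient.field y.asIdeal
  ((norm y ^ j : ℕ) : ℝ) - points (R ⧸ y.asIdeal) (G.map (Ideal.Quotient.mk y.asIdeal)) (norm y ^ j)

/-- The trace on `H²` of the `j`-th power of the Frobenius of the fibre of the product of the curves
`Y² = G_i(X)`, `i < m`. -/
noncomputable def traceTwo {R : Type} [CommRing R] {m : ℕ} (G : Fin m → R[X]) (y : MaximalSpectrum R)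
    (j : ℕ) : ℝ :=
  (m : ℝ) * (norm y ^ j : ℕ) +
    ∑ i, ∑ l, if i < l then traceOne (G i) y j * traceOne (G l) y j else 0

/-- The local factor `det(1 - Frob_y T | H²)⁻¹ = exp (∑_{j ≥ 1} t_j T ^ j / j)`. -/
noncomputable def factor {R : Type} [CommRing R] {m : ℕ} (G : Fin m → R[X]) (y : MaximalSpectrum R)
    (T : ℂ) : ℂ :=
  Complex.exp (∑' j : ℕ, (traceTwo G y (j + 1) : ℂ) / ((j + 1 : ℕ) : ℂ) * T ^ (j + 1))

/-- **The analytic Tate conjecture in codimension one for the products of the hyperelliptic curves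
`Y² = c_i(X) + w b_i(X)` over `M(w)`, for an arbitrary finitely generated field `M` of
characteristic zero and for every model.** -/
theorem result {M : Type} [Field M] [CharZero M]
    (hM : ∃ S : Finset M, Subfield.closure (S : Set M) = ⊤) {d : ℕ} (hd : Algebra.trdeg ℚ M = d)
    {K : Type} [Field K] [CharZero K] [Algebra M K] {w : K} (hw : Transcendental M w)
    (hK : IntermediateField.adjoin M {w} = ⊤)
    {m : ℕ} {g : Fin m → ℕ} {b c : Fin m → M[X]} (hc : ∀ i, (c i).Monic)
    (hcd : ∀ i, (c i).natDegree = 2 * g i + 1) (hb : ∀ i, (b i).natDegree < 2 * g i + 1)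
    (hb0 : ∀ i, b i ≠ 0) (hs : ∀ i, (curve 0 (b i) (c i) w).Separable) :
    Algebra.trdeg ℚ K = (d + 1 : ℕ) ∧
    (∀ i, (curve 0 (b i) (c i) w).Monic ∧ (curve 0 (b i) (c i) w).natDegree = 2 * g i + 1) ∧
    -- the algebraic side: the rank of `J_j(K)`
    (∀ j, ClassGroupHasRank (curve 0 (b j) (c j) w) (rho 0 (b j) (c j))) ∧
    -- the algebraic side: the rank of `J_j(K(C_i))`, for the function field `K(C_i)` of `C_i`
    (∀ i j, ∀ (K₁ : Type) [Field K₁] [Algebra K K₁] (x y : K₁),
      IsFunctionField (curve 0 (b i) (c i) w) x y →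
        ClassGroupHasRank ((curve 0 (b j) (c j) w).map (algebraMap K K₁))
          (rho (overB (b i) (b j)) 0 (overC (b i) (c i) (b j) (c j)))) ∧
    -- the function fields exist
    (∀ i, ∃ (K₁ : Type) (_ : Field K₁) (_ : Algebra K K₁) (x y : K₁),
      IsFunctionField (curve 0 (b i) (c i) w) x y) ∧
    -- the Euler product, for every model
    ∀ (R : Type) [CommRing R] [IsDomain R] [Algebra.FiniteType ℤ R] [Algebra R K]
      [IsFractionRing R K] (G : Fin m → R[X]), (∀ i, (G i).Monic) →
      (∀ i, (G i).map (algebraMap R K) = curve 0 (b i) (c i) w) →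
      (∃ N : R, N ≠ 0 ∧ ∀ y : MaximalSpectrum R, N ∉ y.asIdeal → (2 : R) ∉ y.asIdeal ∧
        ∀ i, ((G i).map (Ideal.Quotient.mk y.asIdeal)).Separable) ∧
      ∀ N : R, N ≠ 0 → ∃ Φ : ℂ → ℂ,
        (∀ s : ℂ, ((d + 3 : ℕ) : ℝ) < s.re →
          HasProd (fun y : {y : MaximalSpectrum R // N ∉ y.asIdeal} =>
            factor G y.1 ((norm y.1 : ℂ) ^ (-s))) (Φ s)) ∧
        DifferentiableOn ℂ Φ {s : ℂ | ((d + 3 : ℕ) : ℝ) < s.re} ∧
        MeromorphicAt Φ ((d + 3 : ℕ) : ℂ) ∧
        meromorphicOrderAt Φ ((d + 3 : ℕ) : ℂ) = ((-rankA b c : ℤ) : WithTop ℤ) := by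
  classical
  have hF : ∀ i, curve 0 (b i) (c i) w = Pool.Agent.R410.CB.fq 0 (b i) (c i) w := by
    intro i
    rw [Pool.Agent.R410.CB.fq_eq]
    rfl
  have hodd : ∀ i, Odd (c i).natDegree := fun i => by rw [hcd i]; exact ⟨g i, rfl⟩
  have hbc : ∀ i, (b i).natDegree < (c i).natDegree := fun i => by rw [hcd i]; exact hb i
  have h0c : ∀ i, (0 : M[X]).natDegree < (c i).natDegree := fun i => by
    rw [natDegree_zero]
    exact (hodd i).pos
  have hnd : ∀ i, (curve 0 (b i) (c i) w).natDegree = 2 * g i + 1 := fun i => by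
    rw [hF i, Pool.Agent.R410.CB.deg_fq (h0c i) (hbc i), hcd i]
  have hmon : ∀ i, (curve 0 (b i) (c i) w).Monic := by
    intro i
    rw [Monic, leadingCoeff, hnd i]
    unfold curve
    rw [coeff_add, coeff_add, coeff_C_mul, coeff_C_mul, coeff_map, coeff_map, coeff_map,
      coeff_eq_zero_of_natDegree_lt (hb i), ← hcd i]
    have : (c i).coeff (c i).natDegree = 1 := hc i
    rw [this, map_one, map_zero, mul_zero, coeff_zero, map_zero, mul_zero, add_zero, add_zero]
  have hSp : ∀ {L : Type} [Field L] (a b c δ : L[X]), IsSplit a b c δ ↔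
      ∃ r s : L[X], Pool.Agent.R410.CB.Spl a b c δ r s := by
    intro L _ a b c δ
    constructor
    · rintro ⟨r, s, h1, h2, h3, h4⟩
      exact ⟨r, s, h1, h2, h3, h4⟩
    · rintro ⟨r, s, h⟩
      exact ⟨r, s, h.ha, h.hb, h.hc, h.ne⟩
  have hσ : ∀ {L : Type} [Field L] (a b c : L[X]), sigma a b c =
      Nat.card (Pool.Agent.R410.NG.SplT a b c) := fun {L} _ a b c =>
    Nat.card_congr (Equiv.subtypeEquivRight fun δ => by rw [hSp a b c δ])
  have hn1 : ∀ j, rho 0 (b j) (c j) = Pool.Agent.R410.NG.nn1 (b j) (c j) := by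
    intro j
    unfold rho Pool.Agent.R410.NG.nn1
    rw [if_neg (fun h => h.1 rfl), Nat.sub_zero, hσ]
  have hn2 : ∀ i j, rho (overB (b i) (b j)) 0 (overC (b i) (c i) (b j) (c j)) =
      Pool.Agent.R410.NG.nn2 (RatFunc.X : RatFunc M) (b i) (c i) (b j) (c j) := by
    intro i j
    unfold rho
    rw [hσ]
    rfl
  have hsep : ∀ i, (Pool.Agent.R410.CB.fq 0 (b i) (c i) w).Separable := fun i => by
    rw [← hF i]
    exact hs i
  have ht : Transcendental M (RatFunc.X : RatFunc M) := by
    rw [transcendental_iff_injective]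
    intro p q h
    apply RatFunc.algebraMap_injective M
    rwa [RatFunc.aeval_X_left_eq_algebraMap, RatFunc.aeval_X_left_eq_algebraMap] at h
  have hL : IntermediateField.adjoin M {(RatFunc.X : RatFunc M)} = ⊤ := RatFunc.adjoin_X
  have hcL : CharZero (RatFunc M) := charZero_of_injective_algebraMap
    (algebraMap M (RatFunc M)).injective
  have hΔ : ∀ j, (b j) ^ 2 - 4 * (0 : M[X]) * c j ≠ 0 := fun j => by
    rw [mul_zero, zero_mul, sub_zero]
    exact pow_ne_zero 2 (hb0 j)
  refine ⟨Pool.Agent.R410.NG.trdeg_line hd hw hK, fun i => ⟨hmon i, hnd i⟩, ?_, ?_, ?_, ?_⟩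
  · intro j
    obtain ⟨h1, -⟩ := Pool.Agent.R410.NG.rank_cb' hw hK (hodd j) (h0c j) (hbc j)
      (hsep j).squarefree (hΔ j)
    rw [if_neg (fun h => h.1 rfl), Nat.sub_zero] at h1
    unfold ClassGroupHasRank
    rw [hn1, hF]
    exact h1
  · intro i j K₁ _ _ x y h
    have hcK : CharZero K₁ := charZero_of_injective_algebraMap (algebraMap K K₁).injective
    obtain ⟨h1, h2, h3⟩ := h
    have h4 : Pool.Agent.R410.NG.IsCf (Pool.Agent.R410.CB.fq 0 (b i) (c i) w) x y :=
      ⟨h1, by rw [← hF]; exact h2, h3⟩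
    obtain ⟨-, h5, -⟩ := Pool.Agent.R410.NG.pair_main hM hd hw hK ht hL (hb0 i) (hb0 j) (hodd j)
      (hbc j) (hsep j) h4
    unfold ClassGroupHasRank
    rw [hn2, hF]
    exact h5
  · intro i
    obtain ⟨K₁, i1, i2, x, y, h⟩ := Pool.Agent.R410.NG.exists_cf (F := curve 0 (b i) (c i) w)
      (by rw [hnd i]; exact ⟨g i, rfl⟩)
    exact ⟨K₁, i1, i2, x, y, h.tr, h.eq, h.gen⟩
  · intro R _ _ _ _ _ G hG hGK
    refine ⟨?_, ?_⟩
    · have h1 : ∀ i, ∃ N : R, N ≠ 0 ∧ ∀ y : MaximalSpectrum R, N ∉ y.asIdeal → (2 : R) ∉ y.asIdeal ∧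
          ((G i).map (Ideal.Quotient.mk y.asIdeal)).Separable := fun i =>
        Pool.Agent.R410.EP.exists_good (K := K) (by rw [hGK i]; exact hs i)
      choose N hN0 hN using h1
      have h2R : (2 : R) ≠ 0 := by
        intro h
        have := congrArg (algebraMap R K) h
        rw [map_ofNat, map_zero] at this
        exact two_ne_zero this
      refine ⟨2 * ∏ i, N i, mul_ne_zero h2R (Finset.prod_ne_zero_iff.2 fun i _ => hN0 i), ?_⟩
      intro y hy
      refine ⟨fun h => hy (y.asIdeal.mul_mem_right _ h), fun i => (hN i y fun h => hy ?_).2⟩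
      refine y.asIdeal.mul_mem_left _ ?_
      exact y.asIdeal.mem_of_dvd (Finset.dvd_prod_of_mem N (Finset.mem_univ i)) h
    · intro N hN
      obtain ⟨Φ, p1, p2, p3, p4⟩ := Pool.Agent.R410.NG.euler_products hM hd hw hK ht hL hb0 hodd hbc
        hsep hG (fun i => by rw [hGK, hF]) hN
      have hr : (m + ∑ i, ∑ j, if i < j then
          ((Pool.Agent.R410.NG.nn2 (RatFunc.X : RatFunc M) (b i) (c i) (b j) (c j) : ℤ) -
            Pool.Agent.R410.NG.nn1 (b j) (c j)) else 0 : ℤ) = rankA b c := by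
        unfold rankA
        simp only [hn1, hn2]
      rw [hr] at p4
      have e1 : (((d + 3 : ℕ) : ℂ) - 1) = ((d + 1 : ℕ) : ℂ) + 1 := by
        push_cast
        ring
      have hset : ∀ s : ℂ, ((d + 3 : ℕ) : ℝ) < s.re → ((d + 1 : ℕ) : ℝ) + 1 < (s - 1).re := by
        intro s hs
        rw [Complex.sub_re, Complex.one_re]
        push_cast at hs ⊢
        linarith
      refine ⟨fun s => Φ (s - 1), ?_, ?_, ?_, ?_⟩
      · intro s hs
        have h1 := p1 (s - 1) (hset s hs)
        have h2 : (fun y : {y : MaximalSpectrum R // N ∉ y.asIdeal} =>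
            factor G y.1 ((norm y.1 : ℂ) ^ (-s))) = fun y : {y : Pool.Agent.TH958.An.Pt R //
              N ∉ y.asIdeal} => Pool.Agent.R410.EP.ZG (Pool.Agent.R410.NG.tau G) y.1
                ((Pool.Agent.TH958.An.qy y.1 : ℂ) ^ (-(s - 1))) := by
          funext y
          unfold factor Pool.Agent.R410.EP.ZG
          congr 1
          refine tsum_congr fun j => ?_
          have hq0 : (Pool.Agent.TH958.An.qy y.1 : ℂ) ≠ 0 := by
            have := Pool.Agent.TH958.An.qy_eq y.1
            rw [this]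
            have h3 := (Pool.Agent.TH958.An.pk y.1).1.2.pos
            exact_mod_cast pow_ne_zero _ h3.ne'
          have hqn : norm y.1 = Pool.Agent.TH958.An.qy y.1 := rfl
          have hqr : ((Pool.Agent.TH958.An.qy y.1 ^ (j + 1) : ℕ) : ℝ) ≠ 0 := by
            have : Pool.Agent.TH958.An.qy y.1 ≠ 0 := by exact_mod_cast hq0
            exact_mod_cast pow_ne_zero _ this
          have ht2 : traceTwo G y.1 (j + 1) = ((Pool.Agent.TH958.An.qy y.1 ^ (j + 1) : ℕ) : ℝ) *
              Pool.Agent.R410.NG.tau G y.1 (Pool.Agent.TH958.An.qy y.1 ^ (j + 1)) := by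
            unfold traceTwo Pool.Agent.R410.NG.tau
            rw [mul_add, ← mul_assoc _ (((Pool.Agent.TH958.An.qy y.1 ^ (j + 1) : ℕ) : ℝ)⁻¹),
              mul_inv_cancel₀ hqr, one_mul, mul_comm (m : ℝ)]
            rfl
          have h4 : (Pool.Agent.TH958.An.qy y.1 : ℂ) ^ (-(s - 1)) =
              (Pool.Agent.TH958.An.qy y.1 : ℂ) ^ (-s) * (Pool.Agent.TH958.An.qy y.1 : ℂ) := by
            rw [show -(s - 1) = -s + 1 by ring, Complex.cpow_add _ _ hq0, Complex.cpow_one]
          rw [hqn, h4, ht2, mul_pow]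
          push_cast
          ring
        rw [h2]
        exact h1
      · refine p2.comp (t := {s : ℂ | ((d + 1 : ℕ) : ℝ) + 1 < s.re}) (f := fun s : ℂ => s - 1)
          (differentiableOn_id.sub_const 1) fun s hs => hset s hs
      · rw [meromorphicAt_fun_comp_sub_const_iff_meromorphicAt, e1]
        exact p3
      · rw [meromorphicOrderAt_fun_comp_sub_const_eq_meromorphicOrderAt, e1]
        exact p4

end Pool.Agent.Results.MP_223b32_ag.ProductsOfPencils
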